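import Pool.Agent.H62.LV.Base
import Pool.Agent.Helper79.LV.P8

namespace Pool.Agent.H62.LV

open MeasureTheory Set Filter Topology

/-! ## P9: monotone iteration -/

private theorem P9_cmp_sub {k ℓ A B : ℝ} (hk : 0 < k) (hℓ : 0 < ℓ) {H w D : ℝ → ℝ}
    (hH : Continuous H) (hw : ContinuousOn w (Icc 0 ℓ)) (hD : IntervalIntegrable D volume 0 ℓ)
    (hd : ∀ x y, 0 ≤ x → x ≤ y → y ≤ ℓ → w y - w x = ∫ s in x..y, D s)
    (he : ∀ x y, 0 ≤ x → x ≤ y → y ≤ ℓ → (∫ s in x..y, (k ^ 2 * w s - H s)) ≤ D y - D x)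
    (h0 : w 0 ≤ A) (h1 : w ℓ ≤ B) : ∀ x ∈ Icc 0 ℓ, w x ≤ TK k ℓ A B H x := by
  obtain ⟨u', hu', hu''⟩ := TK_deriv (A := A) (B := B) hk hℓ hH
  have hcT : Continuous (TK k ℓ A B H) :=
    continuous_iff_continuousAt.2 fun x => (hu' x).continuousAt
  have hcu' : Continuous u' := continuous_iff_continuousAt.2 fun x => (hu'' x).continuousAt
  have hb := TK_bdry (A := A) (B := B) hk hℓ H
  have key := max_principle (K := k ^ 2) (ℓ := ℓ) (by positivity) hℓ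
    (u := fun x => TK k ℓ A B H x - w x) (D := fun x => u' x - D x)
    (hcT.continuousOn.sub hw) ((hcu'.intervalIntegrable _ _).sub hD) ?_ ?_ ?_ ?_
  · intro x hx
    have := key x hx
    linarith
  · intro x y hx hxy hy
    have h1 : (∫ s in x..y, u' s) = TK k ℓ A B H y - TK k ℓ A B H x :=
      intervalIntegral.integral_eq_sub_of_hasDerivAt (fun z _ => hu' z)
        (hcu'.intervalIntegrable _ _)
    have hDi : IntervalIntegrable D volume x y :=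
      hD.mono_set (by rw [uIcc_of_le hxy, uIcc_of_le hℓ.le]; exact Icc_subset_Icc hx hy)
    rw [intervalIntegral.integral_sub (hcu'.intervalIntegrable _ _) hDi, h1, ← hd x y hx hxy hy]
    ring
  · intro x y hx hxy hy
    have hc : Continuous fun s => k ^ 2 * TK k ℓ A B H s - H s :=
      (continuous_const.mul hcT).sub hH
    have h1 : (∫ s in x..y, (k ^ 2 * TK k ℓ A B H s - H s)) = u' y - u' x :=
      intervalIntegral.integral_eq_sub_of_hasDerivAt (fun z _ => hu'' z)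
        (hc.intervalIntegrable _ _)
    have hwc : ContinuousOn w (uIcc x y) := hw.mono (by
      rw [uIcc_of_le hxy]; exact Icc_subset_Icc hx hy)
    have hwi : IntervalIntegrable (fun s => k ^ 2 * w s - H s) volume x y :=
      ((hwc.const_smul (k ^ 2)).sub hH.continuousOn).intervalIntegrable
    have h2 := he x y hx hxy hy
    have h3 : (∫ s in x..y, k ^ 2 * (TK k ℓ A B H s - w s)) =
        (∫ s in x..y, (k ^ 2 * TK k ℓ A B H s - H s)) - ∫ s in x..y, (k ^ 2 * w s - H s) := by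
      rw [← intervalIntegral.integral_sub (hc.intervalIntegrable _ _) hwi]
      congr 1
      ext s
      ring
    rw [h3, h1]
    linarith
  · simp only [hb.1]; linarith
  · simp only [hb.2]; linarith

private theorem P9_cmp_super {k ℓ A B : ℝ} (hk : 0 < k) (hℓ : 0 < ℓ) {H w D : ℝ → ℝ}
    (hH : Continuous H) (hw : ContinuousOn w (Icc 0 ℓ)) (hD : IntervalIntegrable D volume 0 ℓ)
    (hd : ∀ x y, 0 ≤ x → x ≤ y → y ≤ ℓ → w y - w x = ∫ s in x..y, D s)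
    (he : ∀ x y, 0 ≤ x → x ≤ y → y ≤ ℓ → D y - D x ≤ (∫ s in x..y, (k ^ 2 * w s - H s)))
    (h0 : A ≤ w 0) (h1 : B ≤ w ℓ) : ∀ x ∈ Icc 0 ℓ, TK k ℓ A B H x ≤ w x := by
  obtain ⟨u', hu', hu''⟩ := TK_deriv (A := A) (B := B) hk hℓ hH
  have hcT : Continuous (TK k ℓ A B H) :=
    continuous_iff_continuousAt.2 fun x => (hu' x).continuousAt
  have hcu' : Continuous u' := continuous_iff_continuousAt.2 fun x => (hu'' x).continuousAt
  have hb := TK_bdry (A := A) (B := B) hk hℓ H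
  have key := max_principle (K := k ^ 2) (ℓ := ℓ) (by positivity) hℓ
    (u := fun x => w x - TK k ℓ A B H x) (D := fun x => D x - u' x)
    (hw.sub hcT.continuousOn) (hD.sub (hcu'.intervalIntegrable _ _)) ?_ ?_ ?_ ?_
  · intro x hx
    have := key x hx
    linarith
  · intro x y hx hxy hy
    have h1 : (∫ s in x..y, u' s) = TK k ℓ A B H y - TK k ℓ A B H x :=
      intervalIntegral.integral_eq_sub_of_hasDerivAt (fun z _ => hu' z)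
        (hcu'.intervalIntegrable _ _)
    have hDi : IntervalIntegrable D volume x y :=
      hD.mono_set (by rw [uIcc_of_le hxy, uIcc_of_le hℓ.le]; exact Icc_subset_Icc hx hy)
    rw [intervalIntegral.integral_sub hDi (hcu'.intervalIntegrable _ _), h1, ← hd x y hx hxy hy]
    ring
  · intro x y hx hxy hy
    have hc : Continuous fun s => k ^ 2 * TK k ℓ A B H s - H s :=
      (continuous_const.mul hcT).sub hH
    have h1 : (∫ s in x..y, (k ^ 2 * TK k ℓ A B H s - H s)) = u' y - u' x :=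
      intervalIntegral.integral_eq_sub_of_hasDerivAt (fun z _ => hu'' z)
        (hc.intervalIntegrable _ _)
    have hwc : ContinuousOn w (uIcc x y) := hw.mono (by
      rw [uIcc_of_le hxy]; exact Icc_subset_Icc hx hy)
    have hwi : IntervalIntegrable (fun s => k ^ 2 * w s - H s) volume x y :=
      ((hwc.const_smul (k ^ 2)).sub hH.continuousOn).intervalIntegrable
    have h2 := he x y hx hxy hy
    have h3 : (∫ s in x..y, k ^ 2 * (w s - TK k ℓ A B H s)) =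
        (∫ s in x..y, (k ^ 2 * w s - H s)) -
          ∫ s in x..y, (k ^ 2 * TK k ℓ A B H s - H s) := by
      rw [← intervalIntegral.integral_sub hwi (hc.intervalIntegrable _ _)]
      congr 1
      ext s
      ring
    rw [h3, h1]
    linarith
  · simp only [hb.1]; linarith
  · simp only [hb.2]; linarith

private theorem P9_nonneg {k ℓ A B : ℝ} (hk : 0 < k) (hℓ : 0 < ℓ) {H : ℝ → ℝ}
    (hH : Continuous H) (hH0 : ∀ x ∈ Icc 0 ℓ, 0 ≤ H x) (hA : 0 ≤ A) (hB : 0 ≤ B) :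
    ∀ x ∈ Icc 0 ℓ, 0 ≤ TK k ℓ A B H x := by
  refine P9_cmp_sub (w := fun _ => 0) (D := fun _ => 0) hk hℓ hH continuousOn_const
    intervalIntegrable_const ?_ ?_ hA hB
  · intro x y _ _ _; simp
  · intro x y hx hxy hy
    simp only [mul_zero, zero_sub, sub_zero, intervalIntegral.integral_neg]
    have : 0 ≤ ∫ s in x..y, H s := intervalIntegral.integral_nonneg hxy fun s hs =>
      hH0 s ⟨hx.trans hs.1, hs.2.trans hy⟩
    linarith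

private theorem P9_le_one {k ℓ A B : ℝ} (hk : 0 < k) (hℓ : 0 < ℓ) {H : ℝ → ℝ}
    (hH : Continuous H) (hH0 : ∀ x ∈ Icc 0 ℓ, H x ≤ k ^ 2) (hA : A ≤ 1) (hB : B ≤ 1) :
    ∀ x ∈ Icc 0 ℓ, TK k ℓ A B H x ≤ 1 := by
  refine P9_cmp_super (w := fun _ => 1) (D := fun _ => 0) hk hℓ hH continuousOn_const
    intervalIntegrable_const ?_ ?_ hA hB
  · intro x y _ _ _; simp
  · intro x y hx hxy hy
    have : 0 ≤ ∫ s in x..y, (k ^ 2 * 1 - H s) := intervalIntegral.integral_nonneg hxy fun s hs => by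
      have := hH0 s ⟨hx.trans hs.1, hs.2.trans hy⟩
      linarith
    simpa using this

private theorem P9_mono {k ℓ A B : ℝ} (hk : 0 < k) (hℓ : 0 < ℓ) {H H' : ℝ → ℝ}
    (hH : Continuous H) (hH' : Continuous H') (hle : ∀ x ∈ Icc 0 ℓ, H x ≤ H' x) :
    ∀ x ∈ Icc 0 ℓ, TK k ℓ A B H x ≤ TK k ℓ A B H' x := by
  obtain ⟨u', hu', hu''⟩ := TK_deriv (A := A) (B := B) hk hℓ hH
  have hcT : Continuous (TK k ℓ A B H) :=
    continuous_iff_continuousAt.2 fun x => (hu' x).continuousAt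
  have hcu' : Continuous u' := continuous_iff_continuousAt.2 fun x => (hu'' x).continuousAt
  have hb := TK_bdry (A := A) (B := B) hk hℓ H
  refine P9_cmp_sub (w := TK k ℓ A B H) (D := u') hk hℓ hH' hcT.continuousOn
    (hcu'.intervalIntegrable _ _) ?_ ?_ hb.1.le hb.2.le
  · intro x y _ _ _
    exact (intervalIntegral.integral_eq_sub_of_hasDerivAt (fun z _ => hu' z)
        (hcu'.intervalIntegrable _ _)).symm
  · intro x y hx hxy hy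
    have hc : Continuous fun s => k ^ 2 * TK k ℓ A B H s - H s :=
      (continuous_const.mul hcT).sub hH
    have hc' : Continuous fun s => k ^ 2 * TK k ℓ A B H s - H' s :=
      (continuous_const.mul hcT).sub hH'
    rw [← intervalIntegral.integral_eq_sub_of_hasDerivAt (fun z _ => hu'' z)
        (hc.intervalIntegrable _ _)]
    refine intervalIntegral.integral_mono_on hxy (hc'.intervalIntegrable _ _)
      (hc.intervalIntegrable _ _) fun s hs => ?_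
    have := hle s ⟨hx.trans hs.1, hs.2.trans hy⟩
    linarith

private theorem P9_G1_mono {a K p q p' q' : ℝ} (ha : 0 < a) (hK : 1 + a ≤ K)
    (hp : p ∈ Icc (0 : ℝ) 1) (hq : q ∈ Icc (0 : ℝ) 1) (hp' : p' ∈ Icc (0 : ℝ) 1)
    (hq' : q' ∈ Icc (0 : ℝ) 1) (h1 : p ≤ p') (h2 : q ≤ q') :
    F₁ a p q + K * p ≤ F₁ a p' q' + K * p' := by
  unfold F₁
  obtain ⟨hp0, hp1⟩ := hp
  obtain ⟨hq0, hq1⟩ := hq
  obtain ⟨hp0', hp1'⟩ := hp'
  obtain ⟨hq0', hq1'⟩ := hq'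
  have e : p' * (1 - a - p' + a * q') + K * p' - (p * (1 - a - p + a * q) + K * p) =
      (p' - p) * ((K - 1 - a) + (1 - p) + (1 - p') + a * q') + a * p * (q' - q) := by ring
  have h3 : 0 ≤ (p' - p) * ((K - 1 - a) + (1 - p) + (1 - p') + a * q') := by
    apply mul_nonneg (by linarith)
    have : 0 ≤ a * q' := by positivity
    linarith
  have h4 : 0 ≤ a * p * (q' - q) := by
    apply mul_nonneg (by positivity) (by linarith)
  linarith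

private theorem P9_G2_mono {b K p q p' q' : ℝ} (hb : 0 < b) (hK : 1 + b ≤ K)
    (hp : p ∈ Icc (0 : ℝ) 1) (hq : q ∈ Icc (0 : ℝ) 1) (hp' : p' ∈ Icc (0 : ℝ) 1)
    (hq' : q' ∈ Icc (0 : ℝ) 1) (h1 : p ≤ p') (h2 : q ≤ q') :
    F₂ b p q + K * q ≤ F₂ b p' q' + K * q' := by
  unfold F₂
  obtain ⟨hp0, hp1⟩ := hp
  obtain ⟨hq0, hq1⟩ := hq
  obtain ⟨hp0', hp1'⟩ := hp'
  obtain ⟨hq0', hq1'⟩ := hq'
  have e : (1 - q') * (b * p' - q') + K * q' - ((1 - q) * (b * p - q) + K * q) =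
      (q' - q) * ((K - 1 - b) + q + q' + b * (1 - p)) + b * (1 - q') * (p' - p) := by ring
  have h3 : 0 ≤ (q' - q) * ((K - 1 - b) + q + q' + b * (1 - p)) := by
    apply mul_nonneg (by linarith)
    have : 0 ≤ b * (1 - p) := mul_nonneg hb.le (by linarith)
    linarith
  have h4 : 0 ≤ b * (1 - q') * (p' - p) := by
    apply mul_nonneg (mul_nonneg hb.le (by linarith)) (by linarith)
  linarith

private theorem P9_clamp {ℓ : ℝ} (hℓ : 0 < ℓ) (x : ℝ) : max 0 (min x ℓ) ∈ Icc 0 ℓ :=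
  ⟨le_max_left _ _, max_le hℓ.le (min_le_right _ _)⟩

private theorem P9_clamp_eq {ℓ x : ℝ} (hx : x ∈ Icc 0 ℓ) : max 0 (min x ℓ) = x := by
  rw [min_eq_left hx.2, max_eq_right hx.1]

/-- the properties of the iterates -/
private theorem P9_iter {a b k ℓ A₁ B₁ A₂ B₂ : ℝ} (ha : 0 < a) (hb : 0 < b) (hk : 0 < k)
    (hka : 1 + a ≤ k ^ 2) (hkb : 1 + b ≤ k ^ 2) (hℓ : 0 < ℓ)
    (hA₁ : A₁ ∈ Icc (0 : ℝ) 1) (hB₁ : B₁ ∈ Icc (0 : ℝ) 1)
    (hA₂ : A₂ ∈ Icc (0 : ℝ) 1) (hB₂ : B₂ ∈ Icc (0 : ℝ) 1) (n : ℕ) :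
    Continuous (iter a b k ℓ A₁ B₁ A₂ B₂ n).1 ∧ Continuous (iter a b k ℓ A₁ B₁ A₂ B₂ n).2 ∧
      (∀ x ∈ Icc 0 ℓ, (iter a b k ℓ A₁ B₁ A₂ B₂ n).1 x ∈ Icc (0 : ℝ) 1) ∧
      (∀ x ∈ Icc 0 ℓ, (iter a b k ℓ A₁ B₁ A₂ B₂ n).2 x ∈ Icc (0 : ℝ) 1) := by
  induction n with
  | zero =>
    refine ⟨continuous_const, continuous_const, fun x _ => ?_, fun x _ => ?_⟩ <;>
      simp [iter]
  | succ n ih =>
    obtain ⟨c1, c2, m1, m2⟩ := ih
    have hcl : Continuous fun x : ℝ => max 0 (min x ℓ) := by fun_prop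
    have hS1 : Continuous fun x => F₁ a ((iter a b k ℓ A₁ B₁ A₂ B₂ n).1 (max 0 (min x ℓ)))
        ((iter a b k ℓ A₁ B₁ A₂ B₂ n).2 (max 0 (min x ℓ))) +
        k ^ 2 * (iter a b k ℓ A₁ B₁ A₂ B₂ n).1 (max 0 (min x ℓ)) := by
      unfold F₁
      have e1 := c1.comp hcl
      have e2 := c2.comp hcl
      simp only [Function.comp_def] at e1 e2
      fun_prop
    have hS2 : Continuous fun x => F₂ b ((iter a b k ℓ A₁ B₁ A₂ B₂ n).1 (max 0 (min x ℓ)))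
        ((iter a b k ℓ A₁ B₁ A₂ B₂ n).2 (max 0 (min x ℓ))) +
        k ^ 2 * (iter a b k ℓ A₁ B₁ A₂ B₂ n).2 (max 0 (min x ℓ)) := by
      unfold F₂
      have e1 := c1.comp hcl
      have e2 := c2.comp hcl
      simp only [Function.comp_def] at e1 e2
      fun_prop
    have z0 : (0 : ℝ) ∈ Icc (0 : ℝ) 1 := by simp
    have z1 : (1 : ℝ) ∈ Icc (0 : ℝ) 1 := by simp
    have b1 : ∀ x ∈ Icc 0 ℓ, 0 ≤ F₁ a ((iter a b k ℓ A₁ B₁ A₂ B₂ n).1 (max 0 (min x ℓ)))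
        ((iter a b k ℓ A₁ B₁ A₂ B₂ n).2 (max 0 (min x ℓ))) +
        k ^ 2 * (iter a b k ℓ A₁ B₁ A₂ B₂ n).1 (max 0 (min x ℓ)) := by
      intro x _
      have h1 := m1 _ (P9_clamp hℓ x)
      have h2 := m2 _ (P9_clamp hℓ x)
      have := P9_G1_mono ha hka z0 z0 h1 h2 h1.1 h2.1
      simpa [F₁] using this
    have b2 : ∀ x ∈ Icc 0 ℓ, F₁ a ((iter a b k ℓ A₁ B₁ A₂ B₂ n).1 (max 0 (min x ℓ)))
        ((iter a b k ℓ A₁ B₁ A₂ B₂ n).2 (max 0 (min x ℓ))) +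
        k ^ 2 * (iter a b k ℓ A₁ B₁ A₂ B₂ n).1 (max 0 (min x ℓ)) ≤ k ^ 2 := by
      intro x _
      have h1 := m1 _ (P9_clamp hℓ x)
      have h2 := m2 _ (P9_clamp hℓ x)
      have := P9_G1_mono ha hka h1 h2 z1 z1 h1.2 h2.2
      refine this.trans ?_
      unfold F₁
      nlinarith
    have b3 : ∀ x ∈ Icc 0 ℓ, 0 ≤ F₂ b ((iter a b k ℓ A₁ B₁ A₂ B₂ n).1 (max 0 (min x ℓ)))
        ((iter a b k ℓ A₁ B₁ A₂ B₂ n).2 (max 0 (min x ℓ))) +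
        k ^ 2 * (iter a b k ℓ A₁ B₁ A₂ B₂ n).2 (max 0 (min x ℓ)) := by
      intro x _
      have h1 := m1 _ (P9_clamp hℓ x)
      have h2 := m2 _ (P9_clamp hℓ x)
      have := P9_G2_mono hb hkb z0 z0 h1 h2 h1.1 h2.1
      simpa [F₂] using this
    have b4 : ∀ x ∈ Icc 0 ℓ, F₂ b ((iter a b k ℓ A₁ B₁ A₂ B₂ n).1 (max 0 (min x ℓ)))
        ((iter a b k ℓ A₁ B₁ A₂ B₂ n).2 (max 0 (min x ℓ))) +
        k ^ 2 * (iter a b k ℓ A₁ B₁ A₂ B₂ n).2 (max 0 (min x ℓ)) ≤ k ^ 2 := by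
      intro x _
      have h1 := m1 _ (P9_clamp hℓ x)
      have h2 := m2 _ (P9_clamp hℓ x)
      have := P9_G2_mono hb hkb h1 h2 z1 z1 h1.2 h2.2
      refine this.trans ?_
      unfold F₂
      nlinarith
    refine ⟨?_, ?_, ?_, ?_⟩
    · obtain ⟨u', hu', -⟩ := TK_deriv (A := A₁) (B := B₁) hk hℓ hS1
      exact continuous_iff_continuousAt.2 fun x => (hu' x).continuousAt
    · obtain ⟨u', hu', -⟩ := TK_deriv (A := A₂) (B := B₂) hk hℓ hS2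
      exact continuous_iff_continuousAt.2 fun x => (hu' x).continuousAt
    · intro x hx
      exact ⟨P9_nonneg hk hℓ hS1 b1 hA₁.1 hB₁.1 x hx, P9_le_one hk hℓ hS1 b2 hA₁.2 hB₁.2 x hx⟩
    · intro x hx
      exact ⟨P9_nonneg hk hℓ hS2 b3 hA₂.1 hB₂.1 x hx, P9_le_one hk hℓ hS2 b4 hA₂.2 hB₂.2 x hx⟩

private theorem P9_S1 {a b k ℓ A₁ B₁ A₂ B₂ : ℝ} (ha : 0 < a) (hb : 0 < b) (hk : 0 < k)
    (hka : 1 + a ≤ k ^ 2) (hkb : 1 + b ≤ k ^ 2) (hℓ : 0 < ℓ)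
    (hA₁ : A₁ ∈ Icc (0 : ℝ) 1) (hB₁ : B₁ ∈ Icc (0 : ℝ) 1)
    (hA₂ : A₂ ∈ Icc (0 : ℝ) 1) (hB₂ : B₂ ∈ Icc (0 : ℝ) 1) (n : ℕ) :
    Continuous fun x => F₁ a ((iter a b k ℓ A₁ B₁ A₂ B₂ n).1 (max 0 (min x ℓ)))
        ((iter a b k ℓ A₁ B₁ A₂ B₂ n).2 (max 0 (min x ℓ))) +
        k ^ 2 * (iter a b k ℓ A₁ B₁ A₂ B₂ n).1 (max 0 (min x ℓ)) := by
  obtain ⟨c1, c2, m1, m2⟩ := P9_iter ha hb hk hka hkb hℓ hA₁ hB₁ hA₂ hB₂ n
  have hcl : Continuous fun x : ℝ => max 0 (min x ℓ) := by fun_prop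
  unfold F₁
  have e1 := c1.comp hcl
  have e2 := c2.comp hcl
  simp only [Function.comp_def] at e1 e2
  fun_prop

private theorem P9_S2 {a b k ℓ A₁ B₁ A₂ B₂ : ℝ} (ha : 0 < a) (hb : 0 < b) (hk : 0 < k)
    (hka : 1 + a ≤ k ^ 2) (hkb : 1 + b ≤ k ^ 2) (hℓ : 0 < ℓ)
    (hA₁ : A₁ ∈ Icc (0 : ℝ) 1) (hB₁ : B₁ ∈ Icc (0 : ℝ) 1)
    (hA₂ : A₂ ∈ Icc (0 : ℝ) 1) (hB₂ : B₂ ∈ Icc (0 : ℝ) 1) (n : ℕ) :
    Continuous fun x => F₂ b ((iter a b k ℓ A₁ B₁ A₂ B₂ n).1 (max 0 (min x ℓ)))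
        ((iter a b k ℓ A₁ B₁ A₂ B₂ n).2 (max 0 (min x ℓ))) +
        k ^ 2 * (iter a b k ℓ A₁ B₁ A₂ B₂ n).2 (max 0 (min x ℓ)) := by
  obtain ⟨c1, c2, m1, m2⟩ := P9_iter ha hb hk hka hkb hℓ hA₁ hB₁ hA₂ hB₂ n
  have hcl : Continuous fun x : ℝ => max 0 (min x ℓ) := by fun_prop
  unfold F₂
  have e1 := c1.comp hcl
  have e2 := c2.comp hcl
  simp only [Function.comp_def] at e1 e2
  fun_prop

private theorem P9_anti {a b k ℓ A₁ B₁ A₂ B₂ : ℝ} (ha : 0 < a) (hb : 0 < b) (hk : 0 < k)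
    (hka : 1 + a ≤ k ^ 2) (hkb : 1 + b ≤ k ^ 2) (hℓ : 0 < ℓ)
    (hA₁ : A₁ ∈ Icc (0 : ℝ) 1) (hB₁ : B₁ ∈ Icc (0 : ℝ) 1)
    (hA₂ : A₂ ∈ Icc (0 : ℝ) 1) (hB₂ : B₂ ∈ Icc (0 : ℝ) 1) (n : ℕ) :
    ∀ x ∈ Icc 0 ℓ,
      (iter a b k ℓ A₁ B₁ A₂ B₂ (n + 1)).1 x ≤ (iter a b k ℓ A₁ B₁ A₂ B₂ n).1 x ∧
      (iter a b k ℓ A₁ B₁ A₂ B₂ (n + 1)).2 x ≤ (iter a b k ℓ A₁ B₁ A₂ B₂ n).2 x := by
  induction n with
  | zero =>
    intro x hx
    obtain ⟨-, -, m1, m2⟩ := P9_iter ha hb hk hka hkb hℓ hA₁ hB₁ hA₂ hB₂ 1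
    exact ⟨(m1 x hx).2, (m2 x hx).2⟩
  | succ n ih =>
    obtain ⟨-, -, m1, m2⟩ := P9_iter ha hb hk hka hkb hℓ hA₁ hB₁ hA₂ hB₂ n
    obtain ⟨-, -, m1', m2'⟩ := P9_iter ha hb hk hka hkb hℓ hA₁ hB₁ hA₂ hB₂ (n + 1)
    intro x hx
    constructor
    · exact P9_mono hk hℓ (P9_S1 ha hb hk hka hkb hℓ hA₁ hB₁ hA₂ hB₂ (n + 1))
        (P9_S1 ha hb hk hka hkb hℓ hA₁ hB₁ hA₂ hB₂ n)
        (fun y hy => by
          have h := ih _ (P9_clamp hℓ y)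
          exact P9_G1_mono ha hka (m1' _ (P9_clamp hℓ y)) (m2' _ (P9_clamp hℓ y))
            (m1 _ (P9_clamp hℓ y)) (m2 _ (P9_clamp hℓ y)) h.1 h.2) x hx
    · exact P9_mono hk hℓ (P9_S2 ha hb hk hka hkb hℓ hA₁ hB₁ hA₂ hB₂ (n + 1))
        (P9_S2 ha hb hk hka hkb hℓ hA₁ hB₁ hA₂ hB₂ n)
        (fun y hy => by
          have h := ih _ (P9_clamp hℓ y)
          exact P9_G2_mono hb hkb (m1' _ (P9_clamp hℓ y)) (m2' _ (P9_clamp hℓ y))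
            (m1 _ (P9_clamp hℓ y)) (m2 _ (P9_clamp hℓ y)) h.1 h.2) x hx

/-- the iterates decrease to a classical stationary solution -/
theorem iter_limit {a b k ℓ A₁ B₁ A₂ B₂ : ℝ} (ha : 0 < a) (hb : 0 < b) (hk : 0 < k)
    (hka : 1 + a ≤ k ^ 2) (hkb : 1 + b ≤ k ^ 2) (hℓ : 0 < ℓ)
    (hA₁ : A₁ ∈ Icc (0 : ℝ) 1) (hB₁ : B₁ ∈ Icc (0 : ℝ) 1)
    (hA₂ : A₂ ∈ Icc (0 : ℝ) 1) (hB₂ : B₂ ∈ Icc (0 : ℝ) 1) :
    ∃ p q : ℝ → ℝ, Stat a b ℓ p q ∧ p 0 = A₁ ∧ p ℓ = B₁ ∧ q 0 = A₂ ∧ q ℓ = B₂ ∧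
      ∀ x ∈ Icc 0 ℓ, Tendsto (fun n => (iter a b k ℓ A₁ B₁ A₂ B₂ n).1 x) atTop (𝓝 (p x)) ∧
        Tendsto (fun n => (iter a b k ℓ A₁ B₁ A₂ B₂ n).2 x) atTop (𝓝 (q x)) := by
  have hP := P9_iter ha hb hk hka hkb hℓ hA₁ hB₁ hA₂ hB₂
  have hS1 := P9_S1 ha hb hk hka hkb hℓ hA₁ hB₁ hA₂ hB₂
  have hS2 := P9_S2 ha hb hk hka hkb hℓ hA₁ hB₁ hA₂ hB₂
  have hanti := P9_anti ha hb hk hka hkb hℓ hA₁ hB₁ hA₂ hB₂
  set z := iter a b k ℓ A₁ B₁ A₂ B₂ with hz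
  -- pointwise limits
  have hl1 : ∀ x : ℝ, ∃ y : ℝ, x ∈ Icc 0 ℓ → Tendsto (fun n => (z n).1 x) atTop (𝓝 y) := by
    intro x
    by_cases hx : x ∈ Icc 0 ℓ
    · refine ⟨⨅ n, (z n).1 x, fun _ => tendsto_atTop_ciInf
        (antitone_nat_of_succ_le fun n => (hanti n x hx).1) ⟨0, ?_⟩⟩
      rintro _ ⟨n, rfl⟩
      exact ((hP n).2.2.1 x hx).1
    · exact ⟨0, fun h => absurd h hx⟩
  have hl2 : ∀ x : ℝ, ∃ y : ℝ, x ∈ Icc 0 ℓ → Tendsto (fun n => (z n).2 x) atTop (𝓝 y) := by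
    intro x
    by_cases hx : x ∈ Icc 0 ℓ
    · refine ⟨⨅ n, (z n).2 x, fun _ => tendsto_atTop_ciInf
        (antitone_nat_of_succ_le fun n => (hanti n x hx).2) ⟨0, ?_⟩⟩
      rintro _ ⟨n, rfl⟩
      exact ((hP n).2.2.2 x hx).1
    · exact ⟨0, fun h => absurd h hx⟩
  choose p₀ hp₀ using hl1
  choose q₀ hq₀ using hl2
  have mp : ∀ x ∈ Icc 0 ℓ, p₀ x ∈ Icc (0 : ℝ) 1 := fun x hx =>
    isClosed_Icc.mem_of_tendsto (hp₀ x hx) (Eventually.of_forall fun n => (hP n).2.2.1 x hx)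
  have mq : ∀ x ∈ Icc 0 ℓ, q₀ x ∈ Icc (0 : ℝ) 1 := fun x hx =>
    isClosed_Icc.mem_of_tendsto (hq₀ x hx) (Eventually.of_forall fun n => (hP n).2.2.2 x hx)
  set S1 : ℕ → ℝ → ℝ := fun n x => F₁ a ((z n).1 (max 0 (min x ℓ))) ((z n).2 (max 0 (min x ℓ))) +
      k ^ 2 * (z n).1 (max 0 (min x ℓ)) with hS1d
  set S2 : ℕ → ℝ → ℝ := fun n x => F₂ b ((z n).1 (max 0 (min x ℓ))) ((z n).2 (max 0 (min x ℓ))) +
      k ^ 2 * (z n).2 (max 0 (min x ℓ)) with hS2d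
  set T1 : ℝ → ℝ := fun x => F₁ a (p₀ (max 0 (min x ℓ))) (q₀ (max 0 (min x ℓ))) +
      k ^ 2 * p₀ (max 0 (min x ℓ)) with hT1
  set T2 : ℝ → ℝ := fun x => F₂ b (p₀ (max 0 (min x ℓ))) (q₀ (max 0 (min x ℓ))) +
      k ^ 2 * q₀ (max 0 (min x ℓ)) with hT2
  have lim1 : ∀ x, Tendsto (fun n => S1 n x) atTop (𝓝 (T1 x)) := by
    intro x
    have h1 := hp₀ _ (P9_clamp hℓ x)
    have h2 := hq₀ _ (P9_clamp hℓ x)
    simp only [hS1d, hT1, F₁]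
    exact (h1.mul (((tendsto_const_nhds.sub h1)).add (h2.const_mul a))).add (h1.const_mul _)
  have lim2 : ∀ x, Tendsto (fun n => S2 n x) atTop (𝓝 (T2 x)) := by
    intro x
    have h1 := hp₀ _ (P9_clamp hℓ x)
    have h2 := hq₀ _ (P9_clamp hℓ x)
    simp only [hS2d, hT2, F₂]
    exact ((tendsto_const_nhds.sub h2).mul ((h1.const_mul b).sub h2)).add (h2.const_mul _)
  have mS1 : ∀ n, Measurable (S1 n) := fun n => (hS1 n).measurable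
  have mS2 : ∀ n, Measurable (S2 n) := fun n => (hS2 n).measurable
  have mT1 : Measurable T1 := measurable_of_tendsto_metrizable mS1 (tendsto_pi_nhds.2 lim1)
  have mT2 : Measurable T2 := measurable_of_tendsto_metrizable mS2 (tendsto_pi_nhds.2 lim2)
  have z0 : (0 : ℝ) ∈ Icc (0 : ℝ) 1 := by simp
  have z1 : (1 : ℝ) ∈ Icc (0 : ℝ) 1 := by simp
  have bd1 : ∀ p q : ℝ, p ∈ Icc (0 : ℝ) 1 → q ∈ Icc (0 : ℝ) 1 →
      |F₁ a p q + k ^ 2 * p| ≤ k ^ 2 := by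
    intro p q hp hq
    have h1 := P9_G1_mono ha hka z0 z0 hp hq hp.1 hq.1
    have h2 := P9_G1_mono ha hka hp hq z1 z1 hp.2 hq.2
    rw [abs_le]
    constructor
    · have e : F₁ a 0 0 + k ^ 2 * 0 = 0 := by simp [F₁]
      rw [e] at h1
      nlinarith [sq_nonneg k]
    · have e : F₁ a 1 1 + k ^ 2 * 1 = k ^ 2 := by simp only [F₁]; ring
      rw [e] at h2
      exact h2
  have bd2 : ∀ p q : ℝ, p ∈ Icc (0 : ℝ) 1 → q ∈ Icc (0 : ℝ) 1 →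
      |F₂ b p q + k ^ 2 * q| ≤ k ^ 2 := by
    intro p q hp hq
    have h1 := P9_G2_mono hb hkb z0 z0 hp hq hp.1 hq.1
    have h2 := P9_G2_mono hb hkb hp hq z1 z1 hp.2 hq.2
    rw [abs_le]
    constructor
    · have e : F₂ b 0 0 + k ^ 2 * 0 = 0 := by simp [F₂]
      rw [e] at h1
      nlinarith [sq_nonneg k]
    · have e : F₂ b 1 1 + k ^ 2 * 1 = k ^ 2 := by simp only [F₂]; ring
      rw [e] at h2
      exact h2
  have bS1 : ∀ n x, |S1 n x| ≤ k ^ 2 := fun n x =>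
    bd1 _ _ ((hP n).2.2.1 _ (P9_clamp hℓ x)) ((hP n).2.2.2 _ (P9_clamp hℓ x))
  have bS2 : ∀ n x, |S2 n x| ≤ k ^ 2 := fun n x =>
    bd2 _ _ ((hP n).2.2.1 _ (P9_clamp hℓ x)) ((hP n).2.2.2 _ (P9_clamp hℓ x))
  have bT1 : ∀ x, |T1 x| ≤ k ^ 2 := fun x =>
    bd1 _ _ (mp _ (P9_clamp hℓ x)) (mq _ (P9_clamp hℓ x))
  have bT2 : ∀ x, |T2 x| ≤ k ^ 2 := fun x =>
    bd2 _ _ (mp _ (P9_clamp hℓ x)) (mq _ (P9_clamp hℓ x))
  -- the limit functions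
  have e1 : ∀ x ∈ Icc 0 ℓ, TK k ℓ A₁ B₁ T1 x = p₀ x := by
    intro x hx
    have h1 := TK_tendsto (A := A₁) (B := B₁) hk hℓ mS1 bS1 (fun x _ => lim1 x) hx
    have h2 := (tendsto_add_atTop_iff_nat 1).2 (hp₀ x hx)
    exact tendsto_nhds_unique h1 h2
  have e2 : ∀ x ∈ Icc 0 ℓ, TK k ℓ A₂ B₂ T2 x = q₀ x := by
    intro x hx
    have h1 := TK_tendsto (A := A₂) (B := B₂) hk hℓ mS2 bS2 (fun x _ => lim2 x) hx
    have h2 := (tendsto_add_atTop_iff_nat 1).2 (hq₀ x hx)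
    exact tendsto_nhds_unique h1 h2
  have cP : Continuous (TK k ℓ A₁ B₁ T1) := TK_continuous hk hℓ mT1 bT1
  have cQ : Continuous (TK k ℓ A₂ B₂ T2) := TK_continuous hk hℓ mT2 bT2
  have hcl : Continuous fun x : ℝ => max 0 (min x ℓ) := by fun_prop
  have cT1 : Continuous T1 := by
    have : T1 = fun x => F₁ a (TK k ℓ A₁ B₁ T1 (max 0 (min x ℓ)))
        (TK k ℓ A₂ B₂ T2 (max 0 (min x ℓ))) + k ^ 2 * TK k ℓ A₁ B₁ T1 (max 0 (min x ℓ)) := by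
      ext x
      rw [e1 _ (P9_clamp hℓ x), e2 _ (P9_clamp hℓ x)]
    rw [this]
    have f1 := cP.comp hcl
    have f2 := cQ.comp hcl
    simp only [Function.comp_def] at f1 f2
    unfold F₁
    fun_prop
  have cT2 : Continuous T2 := by
    have : T2 = fun x => F₂ b (TK k ℓ A₁ B₁ T1 (max 0 (min x ℓ)))
        (TK k ℓ A₂ B₂ T2 (max 0 (min x ℓ))) + k ^ 2 * TK k ℓ A₂ B₂ T2 (max 0 (min x ℓ)) := by
      ext x
      rw [e1 _ (P9_clamp hℓ x), e2 _ (P9_clamp hℓ x)]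
    rw [this]
    have f1 := cP.comp hcl
    have f2 := cQ.comp hcl
    simp only [Function.comp_def] at f1 f2
    unfold F₂
    fun_prop
  obtain ⟨p', hp', hp''⟩ := TK_deriv (A := A₁) (B := B₁) hk hℓ cT1
  obtain ⟨q', hq', hq''⟩ := TK_deriv (A := A₂) (B := B₂) hk hℓ cT2
  have b1 := TK_bdry (A := A₁) (B := B₁) hk hℓ T1
  have b2 := TK_bdry (A := A₂) (B := B₂) hk hℓ T2
  refine ⟨TK k ℓ A₁ B₁ T1, TK k ℓ A₂ B₂ T2, ⟨?_, p', q', ?_⟩, b1.1, b1.2, b2.1, b2.2, ?_⟩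
  · intro x hx
    rw [e1 x hx, e2 x hx]
    exact ⟨mp x hx, mq x hx⟩
  · intro x hx
    refine ⟨hp' x, hq' x, ?_, ?_⟩
    · have h := hp'' x
      have e : k ^ 2 * TK k ℓ A₁ B₁ T1 x - T1 x =
          -F₁ a (TK k ℓ A₁ B₁ T1 x) (TK k ℓ A₂ B₂ T2 x) := by
        rw [e1 x hx, e2 x hx]
        simp only [hT1, P9_clamp_eq hx]
        ring
      rwa [e] at h
    · have h := hq'' x
      have e : k ^ 2 * TK k ℓ A₂ B₂ T2 x - T2 x =
          -F₂ b (TK k ℓ A₁ B₁ T1 x) (TK k ℓ A₂ B₂ T2 x) := by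
        rw [e1 x hx, e2 x hx]
        simp only [hT2, P9_clamp_eq hx]
        ring
      rwa [e] at h
  · intro x hx
    rw [e1 x hx, e2 x hx]
    exact ⟨hp₀ x hx, hq₀ x hx⟩

theorem iter_ge_sub {a b k ℓ A₁ B₁ A₂ B₂ : ℝ} (ha : 0 < a) (hb : 0 < b) (hk : 0 < k)
    (hka : 1 + a ≤ k ^ 2) (hkb : 1 + b ≤ k ^ 2) (hℓ : 0 < ℓ)
    (hA₁ : A₁ ∈ Icc (0 : ℝ) 1) (hB₁ : B₁ ∈ Icc (0 : ℝ) 1)
    (hA₂ : A₂ ∈ Icc (0 : ℝ) 1) (hB₂ : B₂ ∈ Icc (0 : ℝ) 1) {w₁ w₂ D₁ D₂ : ℝ → ℝ}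
    (hs : IsSub a b ℓ w₁ w₂ D₁ D₂) (h1 : w₁ 0 ≤ A₁) (h2 : w₁ ℓ ≤ B₁) (h3 : w₂ 0 ≤ A₂)
    (h4 : w₂ ℓ ≤ B₂) (n : ℕ) :
    ∀ x ∈ Icc 0 ℓ, w₁ x ≤ (iter a b k ℓ A₁ B₁ A₂ B₂ n).1 x ∧
      w₂ x ≤ (iter a b k ℓ A₁ B₁ A₂ B₂ n).2 x := by
  induction n with
  | zero =>
    intro x hx
    exact ⟨(hs.mem x hx).1.2, (hs.mem x hx).2.2⟩
  | succ n ih =>
    obtain ⟨-, -, m1, m2⟩ := P9_iter ha hb hk hka hkb hℓ hA₁ hB₁ hA₂ hB₂ n
    have hS1 := P9_S1 ha hb hk hka hkb hℓ hA₁ hB₁ hA₂ hB₂ n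
    have hS2 := P9_S2 ha hb hk hka hkb hℓ hA₁ hB₁ hA₂ hB₂ n
    intro x hx
    constructor
    · refine P9_cmp_sub (w := w₁) (D := D₁) hk hℓ hS1 hs.cont₁ hs.int₁ hs.d₁ ?_ h1 h2 x hx
      intro x y hx hxy hy
      refine le_trans ?_ (hs.e₁ x y hx hxy hy)
      rw [← intervalIntegral.integral_neg]
      have hsub : uIcc x y ⊆ Icc 0 ℓ := by rw [uIcc_of_le hxy]; exact Icc_subset_Icc hx hy
      have hc1 := hs.cont₁.mono hsub
      have hc2 := hs.cont₂.mono hsub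
      refine intervalIntegral.integral_mono_on hxy
        (((hc1.const_smul (k ^ 2)).sub hS1.continuousOn).intervalIntegrable)
        (ContinuousOn.intervalIntegrable ?_) fun s hs' => ?_
      · unfold F₁
        exact (hc1.mul ((continuousOn_const.sub hc1).add (continuousOn_const.mul hc2))).neg
      · have hs0 : s ∈ Icc 0 ℓ := ⟨hx.trans hs'.1, hs'.2.trans hy⟩
        have hm := hs.mem s hs0
        have hi := ih s hs0
        have := P9_G1_mono ha hka hm.1 hm.2 (m1 s hs0) (m2 s hs0) hi.1 hi.2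
        simp only [P9_clamp_eq hs0]
        linarith
    · refine P9_cmp_sub (w := w₂) (D := D₂) hk hℓ hS2 hs.cont₂ hs.int₂ hs.d₂ ?_ h3 h4 x hx
      intro x y hx hxy hy
      refine le_trans ?_ (hs.e₂ x y hx hxy hy)
      rw [← intervalIntegral.integral_neg]
      have hsub : uIcc x y ⊆ Icc 0 ℓ := by rw [uIcc_of_le hxy]; exact Icc_subset_Icc hx hy
      have hc1 := hs.cont₁.mono hsub
      have hc2 := hs.cont₂.mono hsub
      refine intervalIntegral.integral_mono_on hxy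
        (((hc2.const_smul (k ^ 2)).sub hS2.continuousOn).intervalIntegrable)
        (ContinuousOn.intervalIntegrable ?_) fun s hs' => ?_
      · unfold F₂
        exact ((continuousOn_const.sub hc2).mul ((continuousOn_const.mul hc1).sub hc2)).neg
      · have hs0 : s ∈ Icc 0 ℓ := ⟨hx.trans hs'.1, hs'.2.trans hy⟩
        have hm := hs.mem s hs0
        have hi := ih s hs0
        have := P9_G2_mono hb hkb hm.1 hm.2 (m1 s hs0) (m2 s hs0) hi.1 hi.2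
        simp only [P9_clamp_eq hs0]
        linarith

end Pool.Agent.H62.LV
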