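import Pool.Agent.H62.LV.Base
import Pool.Agent.Helper18.LV.P9

namespace Pool.Agent.H62.LV

open MeasureTheory Set Filter Topology

/-! ## P10: properties of the set of lengths with a barrier -/

theorem bar_of_sub {a b L : ℝ} (ha : 0 < a) (hb : 0 < b) (hL : 0 < L) {w₁ w₂ D₁ D₂ : ℝ → ℝ}
    (hs : IsSub a b L w₁ w₂ D₁ D₂) (h1 : w₁ 0 = 0) (h2 : w₁ L = 0) (h3 : w₂ 0 = 0)
    (h4 : w₂ L = 0) (hne : ∃ x ∈ Icc 0 L, w₁ x ≠ 0) : Bar a b L := by
  have hk : (0 : ℝ) < 1 + a + b := by positivity
  have hka : 1 + a ≤ (1 + a + b) ^ 2 := by nlinarith [mul_pos ha hb]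
  have hkb : 1 + b ≤ (1 + a + b) ^ 2 := by nlinarith [mul_pos ha hb]
  have z0 : (0 : ℝ) ∈ Icc (0 : ℝ) 1 := by simp
  obtain ⟨p, q, hst, p0, pL, q0, qL, hlim⟩ :=
    iter_limit ha hb hk hka hkb hL z0 z0 z0 z0
  have hge := iter_ge_sub ha hb hk hka hkb hL z0 z0 z0 z0 hs h1.le h2.le h3.le h4.le
  refine ⟨p, q, hst, p0, q0, pL, qL, ?_⟩
  obtain ⟨x, hx, hwx⟩ := hne
  refine ⟨x, hx, ?_⟩
  have h : w₁ x ≤ p x := ge_of_tendsto' (hlim x hx).1 fun n => (hge n x hx).1
  have h' : 0 < w₁ x := lt_of_le_of_ne (hs.mem x hx).1.1 (Ne.symm hwx)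
  linarith

/-- the derivative at the right end of a nonnegative function vanishing there -/
private theorem P10_end {L : ℝ} (hL : 0 < L) {p : ℝ → ℝ} {d : ℝ} (hp : HasDerivAt p d L)
    (h0 : ∀ x ∈ Icc 0 L, 0 ≤ p x) (hpL : p L = 0) : d ≤ 0 := by
  by_contra hd
  push Not at hd
  have h1 : HasDerivWithinAt p d (Iio L) L := hp.hasDerivWithinAt
  have h2 : Tendsto (slope p L) (𝓝[<] L) (𝓝 d) := by
    have := hasDerivWithinAt_iff_tendsto_slope.1 h1
    simpa using this
  have h3 : ∀ᶠ x in 𝓝[<] L, 0 < slope p L x := h2.eventually (lt_mem_nhds hd)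
  have h4 : ∀ᶠ x in 𝓝[<] L, x ∈ Ioo 0 L := Ioo_mem_nhdsLT hL
  obtain ⟨x, hx1, hx2⟩ := (h3.and h4).exists
  rw [slope_def_field, hpL, sub_zero] at hx1
  have h5 := h0 x ⟨hx2.1.le, hx2.2.le⟩
  have h6 : x - L < 0 := by linarith [hx2.2]
  have : p x / (x - L) ≤ 0 := div_nonpos_of_nonneg_of_nonpos h5 h6.le
  linarith

/-- extension by zero -/
private theorem P10_ext {L L' : ℝ} (hL : 0 < L) (hLL : L < L') {p p' f : ℝ → ℝ}
    (hp : ∀ x ∈ Icc 0 L, HasDerivAt p (p' x) x) (hp' : ∀ x ∈ Icc 0 L, HasDerivAt p' (-f x) x)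
    (h0 : ∀ x ∈ Icc 0 L, 0 ≤ p x) (hpL : p L = 0) (hf : ContinuousOn f (Icc 0 L))
    (g : ℝ → ℝ) (hg : ∀ x ∈ Icc 0 L, g x = f x) (hg' : ∀ x, L < x → g x = 0) :
    ContinuousOn (fun x => p (min x L)) (Icc 0 L') ∧
    IntervalIntegrable (fun x => if x ≤ L then p' x else 0) volume 0 L' ∧
    (∀ x y, 0 ≤ x → x ≤ y → y ≤ L' →
      p (min y L) - p (min x L) = ∫ s in x..y, if s ≤ L then p' s else 0) ∧
    (∀ x y, 0 ≤ x → x ≤ y → y ≤ L' →
      -(∫ s in x..y, g s) ≤ (if y ≤ L then p' y else 0) - if x ≤ L then p' x else 0) := by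
  have hcp : ContinuousOn p (Icc 0 L) := fun x hx => (hp x hx).continuousAt.continuousWithinAt
  have hcp' : ContinuousOn p' (Icc 0 L) := fun x hx => (hp' x hx).continuousAt.continuousWithinAt
  have hpL' : p' L ≤ 0 := P10_end hL (hp L ⟨hL.le, le_rfl⟩) h0 hpL
  -- integrability and integrals on the two pieces
  have hi1 : ∀ x y, 0 ≤ x → x ≤ y → y ≤ L →
      IntervalIntegrable (fun x => if x ≤ L then p' x else 0) volume x y ∧
      (∫ s in x..y, if s ≤ L then p' s else 0) = p y - p x := by
    intro x y hx hxy hy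
    have hsub : uIcc x y ⊆ Icc 0 L := by rw [uIcc_of_le hxy]; exact Icc_subset_Icc hx hy
    have hc : IntervalIntegrable p' volume x y := (hcp'.mono hsub).intervalIntegrable
    have he : ∀ s ∈ uIcc x y, p' s = if s ≤ L then p' s else 0 := by
      intro s hs
      rw [if_pos (hsub hs).2]
    constructor
    · refine hc.congr ?_
      exact fun s hs => he s (uIoc_subset_uIcc hs)
    · rw [← intervalIntegral.integral_congr he]
      exact intervalIntegral.integral_eq_sub_of_hasDerivAt (fun z hz => hp z (hsub hz)) hc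
  have hi2 : ∀ x y, L ≤ x → x ≤ y →
      IntervalIntegrable (fun x => if x ≤ L then p' x else 0) volume x y ∧
      (∫ s in x..y, if s ≤ L then p' s else 0) = 0 := by
    intro x y hx hxy
    have he : ∀ s ∈ uIoc x y, (0 : ℝ) = if s ≤ L then p' s else 0 := by
      intro s hs
      rw [uIoc_of_le hxy] at hs
      rw [if_neg (by linarith [hs.1])]
    constructor
    · exact (intervalIntegrable_const (c := (0 : ℝ))).congr he
    · exact intervalIntegral.integral_zero_ae (Eventually.of_forall fun s hs => (he s hs).symm)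
  refine ⟨?_, ?_, ?_, ?_⟩
  · refine hcp.comp (by fun_prop) ?_
    intro x hx
    exact ⟨le_min hx.1 hL.le, min_le_right _ _⟩
  · exact (hi1 0 L le_rfl hL.le le_rfl).1.trans (hi2 L L' le_rfl hLL.le).1
  · intro x y hx hxy hy
    rcases le_total y L with hyL | hyL
    · rw [(hi1 x y hx hxy hyL).2, min_eq_left hyL, min_eq_left (hxy.trans hyL)]
    · rcases le_total x L with hxL | hxL
      · rw [← intervalIntegral.integral_add_adjacent_intervals (hi1 x L hx hxL le_rfl).1
          (hi2 L y le_rfl hyL).1, (hi1 x L hx hxL le_rfl).2, (hi2 L y le_rfl hyL).2,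
          min_eq_right hyL, min_eq_left hxL]
        ring
      · rw [(hi2 x y hxL hxy).2, min_eq_right hyL, min_eq_right hxL, sub_self]
  · -- the inequality
    have hj1 : ∀ x y, 0 ≤ x → x ≤ y → y ≤ L →
        IntervalIntegrable g volume x y ∧ -(∫ s in x..y, g s) = p' y - p' x := by
      intro x y hx hxy hy
      have hsub : uIcc x y ⊆ Icc 0 L := by rw [uIcc_of_le hxy]; exact Icc_subset_Icc hx hy
      have hc : IntervalIntegrable f volume x y := (hf.mono hsub).intervalIntegrable
      have he : ∀ s ∈ uIcc x y, g s = f s := fun s hs => hg s (hsub hs)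
      constructor
      · exact hc.congr fun s hs => (he s (uIoc_subset_uIcc hs)).symm
      · rw [intervalIntegral.integral_congr he, ← intervalIntegral.integral_neg]
        exact intervalIntegral.integral_eq_sub_of_hasDerivAt (fun z hz => hp' z (hsub hz)) hc.neg
    have hj2 : ∀ x y, L ≤ x → x ≤ y →
        IntervalIntegrable g volume x y ∧ (∫ s in x..y, g s) = 0 := by
      intro x y hx hxy
      have he : ∀ s ∈ uIoc x y, (0 : ℝ) = g s := by
        intro s hs
        rw [uIoc_of_le hxy] at hs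
        rw [hg' s (by linarith [hs.1])]
      constructor
      · exact (intervalIntegrable_const (c := (0 : ℝ))).congr he
      · exact intervalIntegral.integral_zero_ae (Eventually.of_forall fun s hs => (he s hs).symm)
    intro x y hx hxy hy
    rcases le_or_gt y L with hyL | hyL
    · rw [(hj1 x y hx hxy hyL).2, if_pos hyL, if_pos (hxy.trans hyL)]
    · rw [if_neg (not_le.2 hyL)]
      rcases le_or_gt x L with hxL | hxL
      · rw [if_pos hxL, ← intervalIntegral.integral_add_adjacent_intervals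
          (hj1 x L hx hxL le_rfl).1 (hj2 L y le_rfl hyL.le).1, (hj2 L y le_rfl hyL.le).2, add_zero,
          (hj1 x L hx hxL le_rfl).2]
        linarith
      · rw [if_neg (not_le.2 hxL), (hj2 x y hxL.le hxy).2]
        simp

theorem bar_mono {a b L L' : ℝ} (ha : 0 < a) (hb : 0 < b) (hL : 0 < L) (hLL : L < L')
    (h : Bar a b L) : Bar a b L' := by
  obtain ⟨p, q, ⟨hmem, p', q', hd⟩, p0, q0, pL, qL, x₀, hx₀, hne⟩ := h
  have hcp : ContinuousOn p (Icc 0 L) := fun x hx => (hd x hx).1.continuousAt.continuousWithinAt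
  have hcq : ContinuousOn q (Icc 0 L) := fun x hx => (hd x hx).2.1.continuousAt.continuousWithinAt
  have hminp : ∀ x, L < x → p (min x L) = 0 := fun x hx => by rw [min_eq_right hx.le, pL]
  have hminq : ∀ x, L < x → q (min x L) = 0 := fun x hx => by rw [min_eq_right hx.le, qL]
  obtain ⟨c1, i1, d1, e1⟩ := P10_ext hL hLL (p := p) (p' := p') (f := fun x => F₁ a (p x) (q x))
    (fun x hx => (hd x hx).1) (fun x hx => (hd x hx).2.2.1) (fun x hx => (hmem x hx).1.1) pL
    (by
      unfold F₁
      exact hcp.mul (((continuousOn_const.sub hcp)).add (continuousOn_const.mul hcq)))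
    (fun x => F₁ a (p (min x L)) (q (min x L)))
    (fun x hx => by simp only [min_eq_left hx.2])
    (fun x hx => by simp only [hminp x hx, hminq x hx, F₁]; ring)
  obtain ⟨c2, i2, d2, e2⟩ := P10_ext hL hLL (p := q) (p' := q') (f := fun x => F₂ b (p x) (q x))
    (fun x hx => (hd x hx).2.1) (fun x hx => (hd x hx).2.2.2) (fun x hx => (hmem x hx).2.1) qL
    (by
      unfold F₂
      exact (continuousOn_const.sub hcq).mul ((continuousOn_const.mul hcp).sub hcq))
    (fun x => F₂ b (p (min x L)) (q (min x L)))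
    (fun x hx => by simp only [min_eq_left hx.2])
    (fun x hx => by simp only [hminp x hx, hminq x hx, F₂]; ring)
  refine bar_of_sub ha hb (hL.trans hLL) (w₁ := fun x => p (min x L)) (w₂ := fun x => q (min x L))
    ⟨c1, c2, i1, i2, ?_, d1, d2, e1, e2⟩ ?_ ?_ ?_ ?_ ?_
  · intro x hx
    exact hmem _ ⟨le_min hx.1 hL.le, min_le_right _ _⟩
  · simp only [min_eq_left hL.le, p0]
  · simp only [min_eq_right hLL.le, pL]
  · simp only [min_eq_left hL.le, q0]
  · simp only [min_eq_right hLL.le, qL]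
  · exact ⟨x₀, ⟨hx₀.1, hx₀.2.trans hLL.le⟩, by simpa only [min_eq_left hx₀.2] using hne⟩

theorem no_bar_near_pi {a b : ℝ} (ha : 0 < a) (hb : 0 < b) :
    ∃ δ > 0, ∀ L, 0 < L → L ≤ Real.pi + δ → ¬ Bar a b L := by
  set m : ℝ := Real.exp (-(4 * Real.sqrt b)) with hm
  have hm0 : 0 < m := Real.exp_pos _
  have hpi3 := Real.pi_gt_three
  have hpi4 := Real.pi_lt_d2
  refine ⟨min (a * m) (1 / 2), lt_min (by positivity) (by norm_num), ?_⟩
  intro L hL hLle hbar
  have hL4 : L ≤ 4 := by
    have := min_le_right (a * m) (1 / 2)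
    linarith
  have hLam : L ≤ Real.pi + a * m := by
    have := min_le_left (a * m) (1 / 2)
    linarith
  have hkey : 1 - (Real.pi / L) ^ 2 < a * m := by
    have hL2 : 0 < L ^ 2 := by positivity
    rw [div_pow, sub_lt_iff_lt_add, ← sub_lt_iff_lt_add', lt_div_iff₀ hL2]
    have ham : 0 < a * m := by positivity
    rcases le_total L Real.pi with h | h
    · nlinarith
    · have h1 : (L - Real.pi) * (L + Real.pi) ≤ (a * m) * (2 * L) := by
        apply mul_le_mul <;> linarith
      have h2 : 0 < (a * m) * (L * (L - 2)) := by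
        apply mul_pos ham (mul_pos hL _)
        linarith
      nlinarith
  obtain ⟨p, q, ⟨hmem, p', q', hd⟩, p0, q0, pL, qL, x₀, hx₀, hne⟩ := hbar
  have hcp : ContinuousOn p (Icc 0 L) := fun x hx => (hd x hx).1.continuousAt.continuousWithinAt
  have hcq : ContinuousOn q (Icc 0 L) := fun x hx => (hd x hx).2.1.continuousAt.continuousWithinAt
  have hcq' : ContinuousOn q' (Icc 0 L) := fun x hx =>
    (hd x hx).2.2.2.continuousAt.continuousWithinAt
  -- lower bound for `1 - q`
  set β : ℝ := Real.sqrt b with hβ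
  have hβ2 : β ^ 2 = b := Real.sq_sqrt hb.le
  have hβ0 : 0 < β := Real.sqrt_pos.2 hb
  have hv : ∀ x, HasDerivAt (fun x => Real.exp (-(β * x))) (-(β * Real.exp (-(β * x)))) x := by
    intro x
    have h1 : HasDerivAt (fun x : ℝ => -(β * x)) (-(β * 1)) x :=
      ((hasDerivAt_id x).const_mul β).neg
    have h2 := h1.exp
    convert h2 using 1
    ring
  have hv' : ∀ x, HasDerivAt (fun x => -(β * Real.exp (-(β * x)))) (b * Real.exp (-(β * x))) x := by
    intro x
    have h2 := ((hv x).const_mul β).neg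
    refine h2.congr_deriv ?_
    rw [← hβ2]
    ring
  have hr : ∀ x ∈ Icc 0 L, 0 ≤ (1 - q x) - Real.exp (-(β * x)) := by
    have hud : ∀ x ∈ Icc 0 L, HasDerivAt (fun x => (1 - q x) - Real.exp (-(β * x)))
        (-q' x - -(β * Real.exp (-(β * x)))) x := fun x hx =>
      (((hd x hx).2.1).const_sub 1).sub (hv x)
    have hDd : ∀ x ∈ Icc 0 L, HasDerivAt (fun x => -q' x - -(β * Real.exp (-(β * x))))
        (F₂ b (p x) (q x) - b * Real.exp (-(β * x))) x := fun x hx => by
      have h1 := ((hd x hx).2.2.2).neg.sub (hv' x)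
      refine h1.congr_deriv ?_
      ring
    have hcD : ContinuousOn (fun x => -q' x - -(β * Real.exp (-(β * x)))) (Icc 0 L) :=
      fun x hx => (hDd x hx).continuousAt.continuousWithinAt
    have hcu : ContinuousOn (fun x => (1 - q x) - Real.exp (-(β * x))) (Icc 0 L) :=
      fun x hx => (hud x hx).continuousAt.continuousWithinAt
    refine max_principle (K := b) hb hL (u := fun x => (1 - q x) - Real.exp (-(β * x)))
      (D := fun x => -q' x - -(β * Real.exp (-(β * x)))) hcu ?_ ?_ ?_ ?_ ?_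
    · refine ContinuousOn.intervalIntegrable ?_
      rwa [uIcc_of_le hL.le]
    · intro x y hx hxy hy
      have hsub : uIcc x y ⊆ Icc 0 L := by rw [uIcc_of_le hxy]; exact Icc_subset_Icc hx hy
      exact (intervalIntegral.integral_eq_sub_of_hasDerivAt (fun z hz => hud z (hsub hz))
        (hcD.mono hsub).intervalIntegrable).symm
    · intro x y hx hxy hy
      have hsub : uIcc x y ⊆ Icc 0 L := by rw [uIcc_of_le hxy]; exact Icc_subset_Icc hx hy
      have hcF : ContinuousOn (fun x => F₂ b (p x) (q x) - b * Real.exp (-(β * x)))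
          (Icc 0 L) := by
        unfold F₂
        refine ((continuousOn_const.sub hcq).mul ((continuousOn_const.mul hcp).sub hcq)).sub ?_
        exact Continuous.continuousOn (by fun_prop)
      have hFi : IntervalIntegrable (fun x => F₂ b (p x) (q x) - b * Real.exp (-(β * x)))
          volume x y := (hcF.mono hsub).intervalIntegrable
      have h1 := intervalIntegral.integral_eq_sub_of_hasDerivAt (fun z hz => hDd z (hsub hz)) hFi
      rw [← h1]
      refine intervalIntegral.integral_mono_on hxy hFi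
        ((continuousOn_const.mul hcu).mono hsub).intervalIntegrable fun s hs => ?_
      have hm' := hmem s ⟨hx.trans hs.1, hs.2.trans hy⟩
      obtain ⟨⟨hp0, hp1⟩, hq0, hq1⟩ := hm'
      unfold F₂
      have : (1 - q s) * (b * p s - q s) ≤ b * (1 - q s) := by
        have h2 : b * p s - q s ≤ b := by nlinarith
        nlinarith
      nlinarith
    · simp [q0]
    · simp only [qL]
      have : Real.exp (-(β * L)) ≤ 1 := Real.exp_le_one_iff.2 (by
        have := mul_pos hβ0 hL
        linarith)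
      linarith
  have hr' : ∀ x ∈ Icc 0 L, m ≤ 1 - q x := by
    intro x hx
    have h1 := hr x hx
    have h2 : m ≤ Real.exp (-(β * x)) := by
      rw [hm]
      apply Real.exp_le_exp.2
      have : β * x ≤ β * 4 := by
        apply mul_le_mul_of_nonneg_left _ hβ0.le
        linarith [hx.2]
      linarith
    linarith
  -- the Wronskian
  have hφ : ∀ x, HasDerivAt (fun x => Real.sin (Real.pi / L * x))
      (Real.pi / L * Real.cos (Real.pi / L * x)) x := by
    intro x
    have h1 : HasDerivAt (fun x : ℝ => Real.pi / L * x) (Real.pi / L * 1) x :=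
      (hasDerivAt_id x).const_mul _
    have h2 := h1.sin
    refine h2.congr_deriv ?_
    ring
  have hφ' : ∀ x, HasDerivAt (fun x => Real.pi / L * Real.cos (Real.pi / L * x))
      (-((Real.pi / L) ^ 2 * Real.sin (Real.pi / L * x))) x := by
    intro x
    have h1 : HasDerivAt (fun x : ℝ => Real.pi / L * x) (Real.pi / L * 1) x :=
      (hasDerivAt_id x).const_mul _
    have h2 := (h1.cos).const_mul (Real.pi / L)
    refine h2.congr_deriv ?_
    ring
  set W : ℝ → ℝ := fun x => p' x * Real.sin (Real.pi / L * x) -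
    p x * (Real.pi / L * Real.cos (Real.pi / L * x)) with hW
  have hWd : ∀ x ∈ Icc 0 L, HasDerivAt W
      (p x * Real.sin (Real.pi / L * x) *
        ((Real.pi / L) ^ 2 - 1 + p x + a * (1 - q x))) x := by
    intro x hx
    have h1 := ((hd x hx).2.2.1.mul (hφ x)).sub ((hd x hx).1.mul (hφ' x))
    refine h1.congr_deriv ?_
    unfold F₁
    ring
  have hsin : ∀ x ∈ Ioo 0 L, 0 < Real.sin (Real.pi / L * x) := by
    intro x hx
    apply Real.sin_pos_of_pos_of_lt_pi
    · have := Real.pi_pos
      have := hx.1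
      positivity
    · calc Real.pi / L * x < Real.pi / L * L := by
            apply mul_lt_mul_of_pos_left hx.2
            have := Real.pi_pos
            positivity
        _ = Real.pi := by field_simp
  have hfac : ∀ x ∈ Icc 0 L, 0 < (Real.pi / L) ^ 2 - 1 + p x + a * (1 - q x) := by
    intro x hx
    have h1 := hr' x hx
    have h2 := (hmem x hx).1.1
    have h3 : a * m ≤ a * (1 - q x) := mul_le_mul_of_nonneg_left h1 ha.le
    linarith
  have hWc : ContinuousOn W (Icc 0 L) := fun x hx => (hWd x hx).continuousAt.continuousWithinAt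
  have hWm : MonotoneOn W (Icc 0 L) := by
    refine monotoneOn_of_deriv_nonneg (convex_Icc 0 L) hWc ?_ ?_
    · intro x hx
      rw [interior_Icc] at hx
      exact (hWd x (Ioo_subset_Icc_self hx)).differentiableAt.differentiableWithinAt
    · intro x hx
      rw [interior_Icc] at hx
      have hx' := Ioo_subset_Icc_self hx
      rw [(hWd x hx').deriv]
      exact mul_nonneg (mul_nonneg (hmem x hx').1.1 (hsin x hx).le) (hfac x hx').le
  have hW0 : W 0 = 0 := by simp [hW, p0]
  have hWL : W L = 0 := by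
    have : Real.pi / L * L = Real.pi := by field_simp
    simp only [hW, pL, this, Real.sin_pi]
    ring
  have hWz : ∀ x ∈ Icc 0 L, W x = 0 := by
    intro x hx
    have h1 := hWm ⟨le_rfl, hL.le⟩ hx hx.1
    have h2 := hWm hx ⟨hL.le, le_rfl⟩ hx.2
    linarith
  have hx₀' : x₀ ∈ Ioo 0 L := by
    refine ⟨lt_of_le_of_ne hx₀.1 ?_, lt_of_le_of_ne hx₀.2 ?_⟩
    · rintro rfl; exact hne p0
    · rintro rfl; exact hne pL
  have hWe : W =ᶠ[𝓝 x₀] fun _ => 0 := by
    filter_upwards [Ioo_mem_nhds hx₀'.1 hx₀'.2] with y hy using hWz y (Ioo_subset_Icc_self hy)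
  have h1 : HasDerivAt W 0 x₀ := (hasDerivAt_const x₀ (0 : ℝ)).congr_of_eventuallyEq hWe
  have h2 := (hWd x₀ hx₀).unique h1
  have hp0' : 0 < p x₀ := lt_of_le_of_ne (hmem x₀ hx₀).1.1 (Ne.symm hne)
  have h3 : 0 < p x₀ * Real.sin (Real.pi / L * x₀) *
      ((Real.pi / L) ^ 2 - 1 + p x₀ + a * (1 - q x₀)) :=
    mul_pos (mul_pos hp0' (hsin x₀ hx₀')) (hfac x₀ hx₀)
  linarith

end Pool.Agent.H62.LV
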